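import Pool.Agent.H207.TF.Stm3
import Pool.Graph.R_seed8.H792R2.CE.D9

/-! Project TF: the linearized equations can be solved. -/

set_option autoImplicit false

open Polynomial

namespace Pool.Agent.H167.TF207.SOLVE

open Pool.Agent.H792R2.CE Pool.Agent.H211.LR Pool.Agent.H207.TF

lemma tay_sub (e : ℂ) (k : ℕ) : taylor e ((X - C e) ^ k) = X ^ k := by
  rw [taylor_pow, map_sub, taylor_X, taylor_C, add_sub_cancel_right]

/-- Taylor coefficients below the order of vanishing -/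
lemma hd_of_dvd {e : ℂ} {k : ℕ} {p : ℂ[X]} (h : (X - C e) ^ k ∣ p) {j : ℕ} (hj : j < k) :
    (hasseDeriv j p).eval e = 0 := by
  obtain ⟨g, rfl⟩ := h
  rw [← taylor_coeff, taylor_mul, tay_sub, coeff_X_pow_mul', if_neg (by omega)]

lemma hd_mul {e : ℂ} (k : ℕ) (g : ℂ[X]) :
    (hasseDeriv k ((X - C e) ^ k * g)).eval e = g.eval e := by
  rw [← taylor_coeff, taylor_mul, tay_sub, coeff_X_pow_mul', if_pos le_rfl, Nat.sub_self,
    taylor_coeff, hasseDeriv_zero, LinearMap.id_apply]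

lemma hd_sum {e : ℂ} (k : ℕ) (a : ℕ → ℂ) {j : ℕ} (hj : j < k) :
    (hasseDeriv j (∑ i ∈ Finset.range k, C (a i) * (X - C e) ^ i)).eval e = a j := by
  rw [← taylor_coeff, map_sum]
  simp only [taylor_mul, tay_sub, taylor_C, finset_sum_coeff, coeff_C_mul, coeff_X_pow,
    mul_ite, mul_one, mul_zero]
  rw [Finset.sum_ite_eq, if_pos (Finset.mem_range.2 hj)]

lemma exists_prim (p : ℂ[X]) : ∃ q : ℂ[X], derivative q = p := by
  induction p using Polynomial.induction_on' with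
  | add p q hp hq =>
    obtain ⟨p', rfl⟩ := hp
    obtain ⟨q', rfl⟩ := hq
    exact ⟨p' + q', map_add _ _ _⟩
  | monomial n a =>
    refine ⟨monomial (n + 1) (a / ((n : ℂ) + 1)), ?_⟩
    rw [derivative_monomial, Nat.add_sub_cancel]
    have h : (n : ℂ) + 1 ≠ 0 := Nat.cast_add_one_ne_zero n
    congr 1
    push_cast
    field_simp

lemma exists_prim_val (p : ℂ[X]) (e b : ℂ) : ∃ q : ℂ[X], derivative q = p ∧ q.eval e = b := by
  obtain ⟨q, hq⟩ := exists_prim p
  refine ⟨q + C (b - q.eval e), ?_, ?_⟩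
  · rw [derivative_add, derivative_C, add_zero, hq]
  · rw [eval_add, eval_C, add_sub_cancel]

lemma cop {e : ℂ} {Q : ℂ[X]} (h : Q.eval e ≠ 0) (k : ℕ) : IsCoprime ((X - C e) ^ k) Q := by
  refine IsCoprime.pow_left ?_
  rw [(irreducible_X_sub_C e).coprime_iff_not_dvd, dvd_iff_isRoot]
  exact h

/-- The local computation. -/
lemma loc {P Q H G S Z A N W : ℂ[X]} {e : ℂ} {m : ℕ} (hQ : Q.eval e ≠ 0)
    (hS : H * Q - P * G = S) (hN : wr P Q = N) (hW : wr H Q + wr P G = W)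
    (hNd : (X - C e) ^ m ∣ N) (hZ : (X - C e) ^ m ∣ S - Q ^ 2 * Z)
    (hA : (X - C e) ^ (m - 1) ∣ Q ^ 2 * derivative Z - A) :
    (X - C e) ^ (m - 1) ∣ W - A := by
  have h1 : (X - C e) ^ (m - 1) ∣ derivative (S - Q ^ 2 * Z) :=
    pow_sub_one_dvd_derivative_of_pow_dvd hZ
  have hpow : (X - C e) ^ (m - 1) ∣ (X - C e) ^ m := pow_dvd_pow _ (Nat.sub_le m 1)
  have h2 : Q * (W - Q ^ 2 * derivative Z) =
      derivative (S - Q ^ 2 * Z) * Q - (S - Q ^ 2 * Z) * (2 * derivative Q) + N * (2 * G) := by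
    rw [← hW, ← hN, ← hS]
    simp only [wr, derivative_sub, derivative_mul, derivative_pow, Nat.cast_ofNat, C_ofNat,
      Nat.add_one_sub_one, pow_one]
    ring
  have h3 : (X - C e) ^ (m - 1) ∣ Q * (W - Q ^ 2 * derivative Z) := by
    rw [h2]
    exact dvd_add (dvd_sub (h1.mul_right _) ((hpow.trans hZ).mul_right _))
      ((hpow.trans hNd).mul_right _)
  have h4 : (X - C e) ^ (m - 1) ∣ W - Q ^ 2 * derivative Z :=
    (cop hQ (m - 1)).dvd_of_dvd_mul_left h3
  have h5 : W - A = (W - Q ^ 2 * derivative Z) + (Q ^ 2 * derivative Z - A) := by ring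
  rw [h5]
  exact dvd_add h4 hA

theorem t_SOLVE : S_SOLVE := by
  classical
  intro d hd x hco hQd hN0 hNd r e he hroot hQe _ a b
  obtain ⟨P, hP⟩ : ∃ P, P = PP x := ⟨_, rfl⟩
  obtain ⟨Q, hQ⟩ : ∃ Q, Q = QQ x := ⟨_, rfl⟩
  obtain ⟨N, hN⟩ : ∃ N, N = wr (PP x) (QQ x) := ⟨_, rfl⟩
  have hPd : P.natDegree ≤ d := by rw [hP]; exact PP_deg x
  rw [← hN] at hN0 hNd hroot
  rw [← hQ] at hco hQd hQe
  rw [← hP] at hco
  have hm : ∀ i, (X - C (e i)) ^ (N.rootMultiplicity (e i)) ∣ N := fun i =>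
    pow_rootMultiplicity_dvd N (e i)
  have hm1 : ∀ i, 0 < N.rootMultiplicity (e i) := fun i =>
    (rootMultiplicity_pos hN0).2 (hroot i)
  -- the polynomials `Z i`
  have hZ : ∀ i, ∃ Z : ℂ[X], Z.eval (e i) = b i ∧
      (X - C (e i)) ^ (N.rootMultiplicity (e i) - 1) ∣ Q ^ 2 * derivative Z -
        ∑ j ∈ Finset.range (N.rootMultiplicity (e i) - 1), C (a i j) * (X - C (e i)) ^ j := by
    intro i
    have hQ2 : (Q ^ 2).eval (e i) ≠ 0 := by
      rw [eval_pow]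
      exact pow_ne_zero _ (hQe i)
    obtain ⟨s, t, hst⟩ := cop hQ2 (N.rootMultiplicity (e i) - 1)
    obtain ⟨Z, hZ1, hZ2⟩ := exists_prim_val
      (t * ∑ j ∈ Finset.range (N.rootMultiplicity (e i) - 1), C (a i j) * (X - C (e i)) ^ j)
      (e i) (b i)
    refine ⟨Z, hZ2, ?_⟩
    rw [hZ1]
    refine ⟨-(s * ∑ j ∈ Finset.range (N.rootMultiplicity (e i) - 1),
      C (a i j) * (X - C (e i)) ^ j), ?_⟩
    linear_combination (∑ j ∈ Finset.range (N.rootMultiplicity (e i) - 1),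
      C (a i j) * (X - C (e i)) ^ j) * hst
  choose Z hZb hZd using hZ
  -- Chinese remainder theorem
  obtain ⟨S₀, hS₀⟩ := Ideal.exists_forall_sub_mem_ideal
    (I := fun i : Fin r => Ideal.span {(X - C (e i)) ^ (N.rootMultiplicity (e i))})
    (by
      intro i j hij
      change IsCoprime (Ideal.span _) (Ideal.span _)
      rw [Ideal.isCoprime_span_singleton_iff]
      exact (pairwise_coprime_X_sub_C he hij).pow) (fun i => Q ^ 2 * Z i)
  obtain ⟨S, hS⟩ : ∃ S, S = S₀ % N := ⟨_, rfl⟩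
  have hSd : S.natDegree ≤ 2 * d := by
    have h := natDegree_mod_lt S₀ (q := N) (by omega)
    rw [← hS] at h
    omega
  have hSZ : ∀ i, (X - C (e i)) ^ (N.rootMultiplicity (e i)) ∣ S - Q ^ 2 * Z i := by
    intro i
    have h1 := Ideal.mem_span_singleton.1 (hS₀ i)
    have h2 : S - Q ^ 2 * Z i = (S₀ - Q ^ 2 * Z i) - N * (S₀ / N) := by
      rw [hS, EuclideanDomain.mod_eq_sub_mul_div]
      ring
    rw [h2]
    exact dvd_sub h1 ((hm i).mul_right _)
  obtain ⟨H, G, hHd, hGd, hHG⟩ := D9_bezout hco hPd hQd (by omega) hSd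
  obtain ⟨v, hv1, hv2⟩ := PQ_surj hHd hGd
  have hvar : varS x v = S := by
    rw [varS, hv1, hv2, ← hP, ← hQ]
    exact hHG
  obtain ⟨W, hW⟩ : ∃ W, W = varW x v := ⟨_, rfl⟩
  have hW' : wr H Q + wr P G = W := by
    rw [hW, varW, hv1, hv2, ← hP, ← hQ]
  have hN' : wr P Q = N := by rw [hN, hP, hQ]
  have hWA : ∀ i, (X - C (e i)) ^ (N.rootMultiplicity (e i) - 1) ∣ W -
      ∑ j ∈ Finset.range (N.rootMultiplicity (e i) - 1), C (a i j) * (X - C (e i)) ^ j :=
    fun i => loc (hQe i) hHG hN' hW' (hm i) (hSZ i) (hZd i)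
  have hNm : ∀ i, (hasseDeriv (N.rootMultiplicity (e i)) N).eval (e i) ≠ 0 := by
    intro i
    obtain ⟨g, hg1, hg2⟩ := exists_eq_pow_rootMultiplicity_mul_and_not_dvd N hN0 (e i)
    intro h0
    apply hg2
    rw [dvd_iff_isRoot]
    have h1 := hd_mul (e := e i) (N.rootMultiplicity (e i)) g
    rw [← hg1, h0] at h1
    exact h1.symm
  refine ⟨v, fun i => (a i (N.rootMultiplicity (e i) - 1) -
    (hasseDeriv (N.rootMultiplicity (e i) - 1) W).eval (e i)) /
      ((((N.rootMultiplicity (e i) - 1 : ℕ) : ℂ) + 1) *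
        (hasseDeriv (N.rootMultiplicity (e i) - 1 + 1) N).eval (e i)), ?_, ?_⟩
  · intro i j hj
    rw [← hN] at hj
    rw [eqW, ← hW, ← hN]
    by_cases hj1 : j < N.rootMultiplicity (e i) - 1
    · rw [hd_of_dvd (hm i) (j := j + 1) (by omega), mul_zero, zero_mul, add_zero]
      have h1 := hd_of_dvd (hWA i) hj1
      rw [map_sub, eval_sub, hd_sum _ _ hj1, sub_eq_zero] at h1
      exact h1
    · have hj2 : j = N.rootMultiplicity (e i) - 1 := by omega
      subst hj2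
      have h1 : N.rootMultiplicity (e i) - 1 + 1 = N.rootMultiplicity (e i) := by
        have := hm1 i
        omega
      have h2 : (((N.rootMultiplicity (e i) - 1 : ℕ) : ℂ) + 1) ≠ 0 :=
        Nat.cast_add_one_ne_zero _
      have h3 : (hasseDeriv (N.rootMultiplicity (e i) - 1 + 1) N).eval (e i) ≠ 0 := by
        rw [h1]
        exact hNm i
      rw [mul_div_cancel₀ _ (mul_ne_zero h2 h3)]
      ring
  · intro i
    rw [hvar, ← hQ]
    have hQ2 : Q.eval (e i) ^ 2 ≠ 0 := pow_ne_zero _ (hQe i)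
    have h1 : (X - C (e i)) ∣ S - Q ^ 2 * Z i :=
      (dvd_pow_self _ (hm1 i).ne').trans (hSZ i)
    rw [dvd_iff_isRoot, IsRoot.def, eval_sub, eval_mul, eval_pow, hZb, sub_eq_zero] at h1
    rw [h1, mul_div_cancel_left₀ _ hQ2]

end Pool.Agent.H167.TF207.SOLVE
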